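import Mathlib
import Pool.Agent.Q135.CS.Main

/-!
# The late columns of the cubic-dimension spectral sequence vanish

The vertices of the hypercube graph `Q_n` are the functions `Fin n → Bool`. `E0 n r p q` is the basis
of `E^0_{p,q}(n, r)`: the simplices of the Vietoris-Rips complex at scale `r` with `p + q + 1` vertices
and cubic dimension `p`. Chains are functions on the finite sets of vertices with support in the basis,
and `d0 e` is the simplicial boundary, with the signs given by a numbering `e` of the vertices; the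
faces of smaller cubic dimension are discarded since only the values at the members of the basis
`E0 n r p (q - 1)` are used.

Let `s(r) = r^2 ((2 r + 1) r)^r`. Then `E^1_{p,q}(n, r) = 0` for all `n`, and all `p > s(r)` and `q`, for
all commutative rings of coefficients.

Proof. Call a set `S` of vertices closed if it contains the centre of every sunflower with `2 r + 2`
petals in `S` (vertices which differ from the centre in pairwise disjoint nonempty sets of
coordinates). Adding centres does not increase the diameter if this is at most `r`, and does not change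
the cubic dimension, so it suffices to treat the simplices in one closed `S`, that is, to show that the
complex of the subsets of `S` which are constant in some of the coordinates in which `S` is not constant
is acyclic. More generally let `z` be a vertex with distance at most `r` from all elements of `T`, let
`T` be closed and nonempty, and consider the subsets of `T` which agree with `z` in a coordinate in `C`
or differ from `z` in a coordinate in `D`. By Erdős-Rado the minimal sets of coordinates in which an
element of `T` differs from `z` involve at most `u` coordinates, and induction shows that this complex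
is acyclic if `C` has more than `m u` other coordinates, where all elements of `T` have `r - m` common
coordinates in which they differ from `z`.
-/

set_option autoImplicit false

namespace Pool.Agent.Results.MP_a4f165_gt.LateColumnsVanish

open Finset

/-- The number of coordinates in which the vertices of `Δ` do not all agree. -/
def cubicDim {n : ℕ} (Δ : Finset (Fin n → Bool)) : ℕ :=
  (univ.filter fun j => ∃ v ∈ Δ, ∃ w ∈ Δ, v j ≠ w j).card

/-- The simplices of the Vietoris-Rips complex of `Q_n` at scale `r` with `p + q + 1` vertices and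
cubic dimension `p`: the basis of `E^0_{p,q}(n, r)`. -/
def E0 (n r : ℕ) (p q : ℤ) : Set (Finset (Fin n → Bool)) :=
  {Δ | Δ.Nonempty ∧ (∀ v ∈ Δ, ∀ w ∈ Δ, hammingDist v w ≤ r) ∧ (cubicDim Δ : ℤ) = p ∧
    (Δ.card : ℤ) = p + q + 1}

/-- The coefficient of `τ` in the simplicial boundary of the chain `c`; the sign is the parity of the
number of vertices of `τ` which come before the additional vertex in the numbering `e`. -/
def d0 {R : Type} [CommRing R] {n : ℕ} (e : (Fin n → Bool) → ℕ) (c : Finset (Fin n → Bool) → R)
    (τ : Finset (Fin n → Bool)) : R :=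
  ∑ v ∈ univ \ τ, (-1) ^ ((τ.filter fun w => e w < e v).card) * c (insert v τ)

/-- `E^1_{p,q}(n, r) = 0`: every chain `c` in `E^0_{p,q}` with `d^0 c = 0` in `E^0_{p,q-1}` is `d^0 b` for
some `b` in `E^0_{p,q+1}`. -/
def E1Vanishes (R : Type) [CommRing R] (n r : ℕ) (e : (Fin n → Bool) → ℕ) (p q : ℤ) : Prop :=
  ∀ c : Finset (Fin n → Bool) → R, (∀ τ, τ ∉ E0 n r p q → c τ = 0) →
    (∀ τ ∈ E0 n r p (q - 1), d0 e c τ = 0) →
    ∃ b : Finset (Fin n → Bool) → R, (∀ τ, τ ∉ E0 n r p (q + 1) → b τ = 0) ∧
      ∀ τ ∈ E0 n r p q, d0 e b τ = c τ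

theorem d0_eq {R : Type} [CommRing R] {n : ℕ} (e : (Fin n → Bool) → ℕ)
    (c : Finset (Fin n → Bool) → R) (τ : Finset (Fin n → Bool)) :
    d0 e c τ = Pool.Agent.Q135.CS.bd e c τ := rfl

theorem mem_E0 {n r : ℕ} {p : ℕ} {q : ℤ} {Δ : Finset (Fin n → Bool)} :
    Δ ∈ E0 n r p q ↔ Δ ∈ Pool.Agent.Q135.CS.Spx (Fin n) r p ∧ (Δ.card : ℤ) = p + q + 1 := by
  have h : ∀ v w : Fin n → Bool, (Pool.Agent.Q135.CS.diff v w).card = hammingDist v w := by
    intro v w
    rw [Pool.Agent.Q135.CS.diff_comm]
    rfl
  constructor
  · rintro ⟨h1, h2, h3, h4⟩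
    refine ⟨⟨h1, fun v hv w hw => ?_, ?_⟩, h4⟩
    · rw [h]
      exact h2 v hv w hw
    · exact_mod_cast h3
  · rintro ⟨⟨h1, h2, h3⟩, h4⟩
    refine ⟨h1, fun v hv w hw => ?_, ?_, h4⟩
    · rw [← h]
      exact h2 v hv w hw
    · exact_mod_cast h3

/-- **The columns beyond `s(r) = r^2 ((2 r + 1) r)^r` vanish.** -/
theorem result (R : Type) [CommRing R] (n r : ℕ) (e : (Fin n → Bool) → ℕ)
    (he : Function.Injective e) (p q : ℤ) (hp : (r ^ 2 * ((2 * r + 1) * r) ^ r : ℕ) < p) :
    E1Vanishes R n r e p q := by
  classical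
  obtain ⟨p, rfl⟩ : ∃ p' : ℕ, p = p' := ⟨p.toNat, by omega⟩
  have hp' : r * Pool.Agent.Q135.CS.wbd (2 * r + 1) r < p := by
    have h1 := Pool.Agent.Q135.CS.wbd_le (2 * r + 1) r r (le_refl r)
    have h2 : r * Pool.Agent.Q135.CS.wbd (2 * r + 1) r ≤ r * (r * ((2 * r + 1) * r) ^ r) :=
      Nat.mul_le_mul_left _ h1
    have h3 : r * (r * ((2 * r + 1) * r) ^ r) = r ^ 2 * ((2 * r + 1) * r) ^ r := by ring
    have h4 : r ^ 2 * ((2 * r + 1) * r) ^ r < p := by exact_mod_cast hp
    omega
  have hac := Pool.Agent.Q135.CS.spx_ac (ι := Fin n) (R := R) he hp'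
  intro c hc hcb
  obtain ⟨b, hb, hbb⟩ := hac c (fun τ h => hc τ fun h2 => h (mem_E0.1 h2).1) (fun τ hτ => by
    by_cases h : (τ.card : ℤ) = p + (q - 1) + 1
    · exact hcb τ (mem_E0.2 ⟨hτ, h⟩)
    · refine Pool.Agent.Q135.CS.bd_zero fun v hv => hc _ fun h2 => h ?_
      have h3 := (mem_E0.1 h2).2
      rw [Finset.card_insert_of_notMem hv] at h3
      push_cast at h3
      omega)
  refine ⟨fun τ => if (τ.card : ℤ) = p + (q + 1) + 1 then b τ else 0, fun τ h => ?_,
    fun τ hτ => ?_⟩
  · beta_reduce
    by_cases h2 : (τ.card : ℤ) = p + (q + 1) + 1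
    · rw [if_pos h2]
      exact hb τ fun h3 => h (mem_E0.2 ⟨h3, h2⟩)
    · rw [if_neg h2]
  · obtain ⟨h1, h2⟩ := mem_E0.1 hτ
    rw [← hbb τ h1, d0_eq]
    refine Pool.Agent.Q135.CS.bd_congr fun v hv => ?_
    rw [if_pos]
    rw [Finset.card_insert_of_notMem hv]
    push_cast
    omega

end Pool.Agent.Results.MP_a4f165_gt.LateColumnsVanish
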